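import Pool.Agent.SGY.Stmts
import Pool.Agent.Helper56_SGP.CTR

/-! Squad SGY, row HST: the step of the case `Hub`. -/

noncomputable section

namespace Pool.Agent.SGY.H47

open Pool.Agent.SGE Pool.Agent.SGP

theorem rot1 (p q r : ℝ × ℝ) : o p q r = o q r p := by unfold o; ring

theorem rot2 (p q r : ℝ × ℝ) : o p q r = o r p q := by unfold o; ring

theorem o_qq (p q : ℝ × ℝ) : o p q q = 0 := by unfold o; ring

theorem o_pp (p q : ℝ × ℝ) : o p p q = 0 := by unfold o; ring

theorem o_pqp (p q : ℝ × ℝ) : o p q p = 0 := by unfold o; ring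

theorem hst : HstStmt := by
  intro V _ _ a b c s E E' F F' k m D D' f π' π X N H G Y hm1 hmk hD hD1 hD2 hπ1 hπm hπ2 hX
  -- corners
  have hnd := H.nt.nd
  simp only [List.nodup_cons, List.mem_cons, List.not_mem_nil, not_or,
    or_false, not_false_eq_true, and_true, List.nodup_nil] at hnd
  obtain ⟨⟨hac, hab⟩, hcb⟩ := hnd
  have ra : Rel E' a := Pool.Agent.SGP.H56.contour_nb H.nt (by simp)
  have rb : Rel E' b := Pool.Agent.SGP.H56.contour_nb H.nt (by simp)
  have rc : Rel E' c := Pool.Agent.SGP.H56.contour_nb H.nt (by simp)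
  have rs : ¬ Rel E' s := fun ⟨x, hx⟩ => H.iso x hx
  have hsI : s ∉ Inn a b c E' := fun h => rs h.2.2.2
  have hInn : ∀ x, x ∈ Inn a b c E ↔ x = s ∨ x ∈ Inn a b c E' := by
    intro x
    constructor
    · rintro ⟨h1, h2, h3, h4⟩
      rcases (H.rel x).1 h4 with h | h
      · exact Or.inl h
      · exact Or.inr ⟨h1, h2, h3, h⟩
    · rintro (h | h)
      · rw [h]
        exact ⟨H.sa, H.sb, H.sc, (H.rel s).2 (Or.inl rfl)⟩
      · exact ⟨h.1, h.2.1, h.2.2.1, (H.rel x).2 (Or.inr h.2.2.2)⟩
  -- the old positions
  set pp : ℕ → V := ps b c k π' with hpp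
  have hp0 : pp 0 = c := by simp [hpp, ps]
  have hpk : pp (k + 1) = b := by simp [hpp, ps]
  have hpi : ∀ i, 1 ≤ i → i ≤ k → pp i = π' i := by
    intro i h1 h2
    simp only [hpp, ps]
    rw [if_neg (by omega), if_pos h2]
  have hpR : ∀ i, i ≤ k + 1 → Rel E' (pp i) ∧ pp i ≠ a ∧ pp i ≠ s := by
    intro i hi
    rcases Nat.eq_zero_or_pos i with h0 | h0
    · rw [h0, hp0]
      exact ⟨rc, fun h => hac h.symm, fun h => H.sc h.symm⟩
    · by_cases hk : i ≤ k
      · rw [hpi i h0 hk]
        have h := Y.pin i h0 hk
        exact ⟨h.2.2.2, h.1, fun h' => hsI (h' ▸ h)⟩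
      · have : i = k + 1 := by omega
        rw [this, hpk]
        exact ⟨rb, fun h => hab h.symm, fun h => H.sb h.symm⟩
  have hrad : ∀ i j, i < j → j ≤ k + 1 → 0 < o (f a) (f (pp j)) (f (pp i)) := Y.rad
  -- the new point seen from a
  have hge : ∀ i, m ≤ i → i ≤ k + 1 → 0 < o (f a) (f (pp i)) X := by
    intro i h1 h2
    obtain ⟨h3, h4, -⟩ := hpR i h2
    refine hX.rt _ h3 h4 ?_ ?_
    · rcases Nat.eq_or_lt_of_le h1 with h | h
      · rw [← h, o_qq]
      · exact (hrad m i h h2).le
    · exact (hrad (m - 1) i (by omega) h2).le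
  have hlt : ∀ i, i < m → 0 < o (f a) X (f (pp i)) := by
    intro i h1
    obtain ⟨h3, h4, -⟩ := hpR i (by omega)
    refine hX.lt _ h3 h4 ?_ ?_
    · exact (hrad i m h1 hmk).le
    · rcases Nat.eq_or_lt_of_le (Nat.le_sub_one_of_lt h1) with h | h
      · rw [← h, o_qq]
      · exact (hrad i (m - 1) h (by omega)).le
  have hb : 0 < o (f a) (f b) X := by
    have := hge (k + 1) hmk le_rfl
    rwa [hpk] at this
  have hc : 0 < o (f a) X (f c) := by
    have := hlt 0 hm1
    rwa [hp0] at this
  -- the new placement
  set g := Function.update f s X with hg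
  have gs : g s = X := by rw [hg, Function.update_self]
  have gn : ∀ x, x ≠ s → g x = f x := fun x hx => by rw [hg, Function.update_of_ne hx]
  have ga : g a = f a := gn a (fun h => H.sa h.symm)
  have gb : g b = f b := gn b (fun h => H.sb h.symm)
  have gc : g c = f c := gn c (fun h => H.sc h.symm)
  have hrel : ∀ x, Rel E x → x ≠ s → Rel E' x := fun x h1 h2 =>
    ((H.rel x).1 h1).resolve_left h2
  have hX1 : ∀ y z, Rel E' y → Rel E' z → y ≠ z → o X (f y) (f z) ≠ 0 := by
    intro y z hy hz hyz
    by_cases h1 : y = a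
    · rw [h1, rot1]
      exact hX.gen z hz (fun h => hyz (h1.trans h.symm))
    · by_cases h2 : z = a
      · rw [h2]
        intro h
        refine hX.gen y hy h1 ?_
        have : o (f a) (f y) X = - o X (f y) (f a) := by unfold o; ring
        rw [this, h, neg_zero]
      · exact left_ne_zero_of_mul (hX.near y z hy hz h1 h2 hyz).ne'
  refine ⟨⟨?_, ?_, ?_, ?_⟩, ⟨?_, ?_, ?_, ?_, ?_⟩⟩
  · intro x y z hx hy hz hxy hxz hyz
    by_cases h1 : x = s
    · have h2 : y ≠ s := fun h => hxy (h1.trans h.symm)
      have h3 : z ≠ s := fun h => hxz (h1.trans h.symm)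
      rw [h1, gs, gn y h2, gn z h3]
      exact hX1 y z (hrel y hy h2) (hrel z hz h3) hyz
    · by_cases h2 : y = s
      · have h3 : z ≠ s := fun h => hyz (h2.trans h.symm)
        rw [h2, gs, gn x h1, gn z h3, rot1]
        exact hX1 z x (hrel z hz h3) (hrel x hx h1) hxz.symm
      · by_cases h3 : z = s
        · rw [h3, gs, gn x h1, gn y h2, rot2]
          exact hX1 x y (hrel x hx h1) (hrel y hy h2) hxy
        · rw [gn x h1, gn y h2, gn z h3]
          exact G.gp x y z (hrel x hx h1) (hrel y hy h2) (hrel z hz h3) hxy hxz hyz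
  · rw [ga, gb, gc]
    exact G.tri
  · intro x hx
    rcases (hInn x).1 hx with h | h
    · rw [h, gs, ga, gb, gc]
      refine ⟨hb, ?_, ?_⟩
      · have h1 := hX.near b c rb rc (Ne.symm hab) (Ne.symm hac) (Ne.symm hcb)
        have h2 := (pos_iff_pos_of_mul_pos h1).2 G.tri
        rwa [rot2 (f b) (f c) X]
      · rwa [rot1 (f c) (f a) X]
    · have hs : x ≠ s := fun h' => hsI (h' ▸ h)
      rw [gn x hs, ga, gb, gc]
      exact G.ins x h
  · -- faces
    have key1 : ∀ x y, F x y a → 0 < o (g x) (g y) (g a) := by
      intro x y h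
      rcases H.f1 x y h with ⟨h1, h2⟩ | ⟨h1, h2⟩
      · rw [h1, h2, gs, ga, gb, rot2]
        exact hb
      · rw [h1, h2, gs, ga, gc, rot2]
        exact hc
    have key2 : ∀ y z, F s y z → y ≠ a → z ≠ a → 0 < o (g s) (g y) (g z) := by
      intro y z h hy hz
      have h1 := G.fac _ _ _ (H.f0 s y z h H.sa hy hz)
      have hrs : ren s a s = a := by simp [ren]
      rw [hrs] at h1
      have h2 : y ≠ s := by
        intro h'
        rw [h', hrs, o_pp] at h1
        exact lt_irrefl _ h1
      have h3 : z ≠ s := by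
        intro h'
        rw [h', hrs, o_pqp] at h1
        exact lt_irrefl _ h1
      have h4 : ren s a y = y := by simp [ren, h2]
      have h5 : ren s a z = z := by simp [ren, h3]
      rw [h4, h5] at h1
      have h6 : y ≠ z := by
        intro h'
        rw [h', o_qq] at h1
        exact lt_irrefl _ h1
      have h7 : Rel E' y := hrel y ⟨z, N.fe _ _ _ (N.rot _ _ _ h)⟩ h2
      have h8 : Rel E' z := hrel z ⟨s, N.fe _ _ _ (N.rot _ _ _ (N.rot _ _ _ h))⟩ h3
      rw [gs, gn y h2, gn z h3]
      exact (pos_iff_pos_of_mul_pos (hX.near y z h7 h8 hy hz h6)).2 h1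
    intro x y z h
    by_cases h1 : x = a
    · rw [rot1]
      rw [h1] at h ⊢
      exact key1 y z (N.rot _ _ _ h)
    by_cases h2 : y = a
    · rw [rot2]
      rw [h2] at h ⊢
      exact key1 z x (N.rot _ _ _ (N.rot _ _ _ h))
    by_cases h3 : z = a
    · rw [h3] at h ⊢
      exact key1 x y h
    by_cases h4 : x = s
    · rw [h4] at h ⊢
      exact key2 y z h h2 h3
    by_cases h5 : y = s
    · rw [rot1]
      rw [h5] at h ⊢
      exact key2 z x (N.rot _ _ _ h) h3 h1
    by_cases h6 : z = s
    · rw [rot2]
      rw [h6] at h ⊢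
      exact key2 x y (N.rot _ _ _ (N.rot _ _ _ h)) h1 h2
    have h7 := G.fac _ _ _ (H.f0 x y z h h1 h2 h3)
    have h8 : ren s a x = x := by simp [ren, h4]
    have h9 : ren s a y = y := by simp [ren, h5]
    have h10 : ren s a z = z := by simp [ren, h6]
    rw [h8, h9, h10] at h7
    rw [gn x h4, gn y h5, gn z h6]
    exact h7
  · -- pin
    intro i h1 h2
    rw [hInn]
    rcases lt_trichotomy i m with h | h | h
    · right
      rw [hπ1 i h]
      exact Y.pin i h1 (by omega)
    · left
      rw [h, hπm]
    · right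
      rw [hπ2 i h]
      exact Y.pin (i - 1) (by omega) (by omega)
  · -- pij
    intro i j h1 h2 h3 h4 h5
    rcases lt_trichotomy i m with h | h | h
    · have hi := Y.pin i h1 (by omega)
      rw [hπ1 i h] at h5
      rcases lt_trichotomy j m with h' | h' | h'
      · rw [hπ1 j h'] at h5
        exact Y.pij i j h1 (by omega) h3 (by omega) h5
      · rw [h', hπm] at h5
        exact absurd (h5 ▸ hi) hsI
      · rw [hπ2 j h'] at h5
        have := Y.pij i (j - 1) h1 (by omega) (by omega) (by omega) h5
        omega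
    · rw [h, hπm] at h5
      rcases lt_trichotomy j m with h' | h' | h'
      · have hj := Y.pin j h3 (by omega)
        rw [hπ1 j h'] at h5
        exact absurd (h5.symm ▸ hj) hsI
      · omega
      · have hj := Y.pin (j - 1) (by omega) (by omega)
        rw [hπ2 j h'] at h5
        exact absurd (h5.symm ▸ hj) hsI
    · have hi := Y.pin (i - 1) (by omega) (by omega)
      rw [hπ2 i h] at h5
      rcases lt_trichotomy j m with h' | h' | h'
      · rw [hπ1 j h'] at h5
        have := Y.pij (i - 1) j (by omega) (by omega) h3 (by omega) h5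
        omega
      · rw [h', hπm] at h5
        exact absurd (h5 ▸ hi) hsI
      · rw [hπ2 j h'] at h5
        have := Y.pij (i - 1) (j - 1) (by omega) (by omega) (by omega) (by omega) h5
        omega
  · -- psu
    intro x hx
    rcases (hInn x).1 hx with h | h
    · exact ⟨m, hm1, hmk, by rw [hπm, h]⟩
    · obtain ⟨i, h1, h2, h3⟩ := Y.psu x h
      by_cases hi : i < m
      · exact ⟨i, h1, by omega, by rw [hπ1 i hi, h3]⟩
      · exact ⟨i + 1, by omega, by omega, by
          rw [hπ2 (i + 1) (by omega), Nat.add_sub_cancel, h3]⟩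
  all_goals
    have hq1 : ∀ i, i < m → g (ps b c (k + 1) π i) = f (pp i) := by
      intro i hi
      have e : ps b c (k + 1) π i = pp i := by
        rcases Nat.eq_zero_or_pos i with h0 | h0
        · rw [h0, hp0]; simp [ps]
        · rw [hpi i h0 (by omega)]
          simp only [ps]
          rw [if_neg (by omega), if_pos (by omega), hπ1 i hi]
      rw [e, gn _ (hpR i (by omega)).2.2]
    have hq2 : g (ps b c (k + 1) π m) = X := by
      have e : ps b c (k + 1) π m = s := by
        simp only [ps]
        rw [if_neg (by omega), if_pos (by omega), hπm]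
      rw [e, gs]
    have hq3 : ∀ i, m < i → i ≤ k + 1 + 1 → g (ps b c (k + 1) π i) = f (pp (i - 1)) := by
      intro i hi hk
      have e : ps b c (k + 1) π i = pp (i - 1) := by
        by_cases h : i ≤ k + 1
        · rw [hpi (i - 1) (by omega) (by omega)]
          simp only [ps]
          rw [if_neg (by omega), if_pos h, hπ2 i hi]
        · have h' : i = k + 1 + 1 := by omega
          rw [h', Nat.add_sub_cancel, hpk]
          simp only [ps]
          rw [if_neg (by omega), if_neg (by omega)]
      rw [e, gn _ (hpR (i - 1) (by omega)).2.2]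
  · -- rad
    intro i j hij hj
    rw [ga]
    rcases lt_trichotomy i m with h | h | h
    · rw [hq1 i h]
      rcases lt_trichotomy j m with h' | h' | h'
      · rw [hq1 j h']
        exact hrad i j hij (by omega)
      · rw [h', hq2]
        exact hlt i h
      · rw [hq3 j h' hj]
        exact hrad i (j - 1) (by omega) (by omega)
    · rw [h, hq2, hq3 j (by omega) hj]
      exact hge (j - 1) (by omega) (by omega)
    · rw [hq3 i h (by omega), hq3 j (by omega) hj]
      exact hrad (i - 1) (j - 1) (by omega) (by omega)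
  · -- low
    intro i l j hil hlj hj hE
    have hl : D l ≤ D m := hD l (by omega) (by omega)
    have him : i ≠ m := by
      intro h
      have := (hE l hil hlj).1 (by omega)
      rw [h] at this
      omega
    have hjm : j ≠ m := by
      intro h
      have := (hE l hil hlj).2 (by omega)
      rw [h] at this
      omega
    -- the old numbers
    have hEd : ∀ i' j', (i' = if i < m then i else i - 1) → (j' = if j < m then j else j - 1) →
        Ed k D' i' j' := by
      intro i' j' hi' hj' l' h1 h2
      have hDi : D' i' = D i := by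
        by_cases h : i < m
        · rw [if_pos h] at hi'
          rw [hi', hD1 i h]
        · rw [if_neg h] at hi'
          rw [hi', hD2 (i - 1) (by omega), Nat.sub_add_cancel (by omega)]
      have hDj : D' j' = D j := by
        by_cases h : j < m
        · rw [if_pos h] at hj'
          rw [hj', hD1 j h]
        · rw [if_neg h] at hj'
          rw [hj', hD2 (j - 1) (by omega), Nat.sub_add_cancel (by omega)]
      have hDl : ∃ L, D' l' = D L ∧ i < L ∧ L < j := by
        by_cases h : l' < m
        · refine ⟨l', hD1 l' h, ?_, ?_⟩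
          · split_ifs at hi' <;> omega
          · split_ifs at hj' <;> omega
        · refine ⟨l' + 1, hD2 l' (by omega), ?_, ?_⟩
          · split_ifs at hi' <;> omega
          · split_ifs at hj' <;> omega
      obtain ⟨L, hL1, hL2, hL3⟩ := hDl
      obtain ⟨h3, h4⟩ := hE L hL2 hL3
      rw [hDi, hDj, hL1]
      refine ⟨fun h => h3 (by split_ifs at hi' <;> omega), fun h => h4 (by
        split_ifs at hj' <;> omega)⟩
    have hE' := hEd _ _ rfl rfl
    rcases lt_trichotomy l m with h | h | h
    · -- l < m
      have hi : i < m := by omega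
      rw [hq1 i hi, hq1 l h]
      rw [if_pos hi] at hE'
      by_cases h' : j < m
      · rw [if_pos h'] at hE'
        rw [hq1 j h']
        exact Y.low i l j hil hlj (by omega) hE'
      · rw [if_neg h'] at hE'
        rw [hq3 j (by omega) hj]
        exact Y.low i l (j - 1) hil (by omega) (by omega) hE'
    · -- l = m
      have hi : i < m := by omega
      rw [h, hq2, hq1 i hi, hq3 j (by omega) hj, rot2]
      have h1 := hrad i (j - 1) (by omega) (by omega)
      obtain ⟨h2, h3, -⟩ := hpR i (by omega)
      obtain ⟨h4, h5, -⟩ := hpR (j - 1) (by omega)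
      have h6 : pp (j - 1) ≠ pp i := by
        intro h'
        rw [h', o_qq] at h1
        exact lt_irrefl _ h1
      exact (pos_iff_pos_of_mul_pos (hX.near _ _ h4 h2 h5 h3 h6)).2 h1
    · -- m < l
      have hjm' : m < j := by omega
      rw [hq3 l h (by omega), hq3 j hjm' hj]
      rw [if_neg (by omega : ¬ j < m)] at hE'
      by_cases h' : i < m
      · rw [if_pos h'] at hE'
        rw [hq1 i h']
        exact Y.low i (l - 1) (j - 1) (by omega) (by omega) (by omega) hE'
      · rw [if_neg h'] at hE'
        rw [hq3 i (by omega) (by omega)]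
        exact Y.low (i - 1) (l - 1) (j - 1) (by omega) (by omega) (by omega) hE'

end Pool.Agent.SGY.H47
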